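import Mathlib

/-!
# Strong arboricity can exceed the colouring number
-/

namespace Pool.Agent.Results.MP_5ca9a4_co.StrongArbVsCol

/-- `c` is a strongly woody edge colouring of `G`: for no cycle `p` of `G` and no edge `e` of `p`
do all edges of the broken cycle `p - e` have the same colour. -/
def StronglyWoody {V : Type*} (G : SimpleGraph V) {k : ℕ} (c : G.edgeSet → Fin k) : Prop :=
  ∀ (v : V) (p : G.Walk v v), p.IsCycle → ∀ e ∈ p.edges,
    ¬ ∃ a : Fin k, ∀ (f : Sym2 V) (hf : f ∈ p.edges), f ≠ e →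
      c ⟨f, p.edges_subset_edgeSet hf⟩ = a

/-- The strong arboricity: the least number of colours in a strongly woody edge colouring. -/
noncomputable def strongArboricity {V : Type*} (G : SimpleGraph V) : ℕ :=
  sInf {k : ℕ | ∃ c : G.edgeSet → Fin k, StronglyWoody G c}

/-- The back-degree of `v` in the ordering given by the injection `σ` into the naturals. -/
noncomputable def backDegree {V : Type*} (G : SimpleGraph V) (σ : V → ℕ) (v : V) : ℕ :=
  {u : V | G.Adj v u ∧ σ u < σ v}.ncard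

/-- The colouring number: the least `r` such that some ordering has all back-degrees at most
`r - 1`. -/
noncomputable def colNumber {V : Type*} (G : SimpleGraph V) : ℕ :=
  sInf {r : ℕ | ∃ σ : V → ℕ, Function.Injective σ ∧ ∀ v, backDegree G σ v + 1 ≤ r}

/-- Edge list of the example: `0 1` is the base edge, `2,3,4` are joined to both `0` and `1`,
and each pair of `2,3,4` has two further common neighbours. -/
def adjB : Fin 11 → Fin 11 → Bool
  | 0, 1 => true | 0, 2 => true | 0, 3 => true | 0, 4 => true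
  | 1, 2 => true | 1, 3 => true | 1, 4 => true
  | 2, 5 => true | 3, 5 => true | 2, 6 => true | 3, 6 => true
  | 2, 7 => true | 4, 7 => true | 2, 8 => true | 4, 8 => true
  | 3, 9 => true | 4, 9 => true | 3, 10 => true | 4, 10 => true
  | _, _ => false

/-- The counterexample graph on 11 vertices. -/
def G : SimpleGraph (Fin 11) where
  Adj u v := adjB u v = true ∨ adjB v u = true
  symm := ⟨fun _ _ h => h.symm⟩
  loopless := ⟨by decide⟩

instance : DecidableRel G.Adj := fun u v => by unfold G; infer_instance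

section
variable {c : G.edgeSet → Fin 3} (hc : StronglyWoody G c)

include hc

/-- Triangles get three colours. -/
lemma tri {u v w : Fin 11} (h1 : G.Adj u v) (h2 : G.Adj v w) (h3 : G.Adj w u) :
    c ⟨s(u, v), h1⟩ ≠ c ⟨s(v, w), h2⟩ := by
  intro heq
  have huv := h1.ne
  have hvw := h2.ne
  have hwu := h3.ne
  let p : G.Walk u u := .cons h1 (.cons h2 (.cons h3 .nil))
  have hp : p.IsCycle := by
    simp only [p, SimpleGraph.Walk.cons_isCycle_iff, SimpleGraph.Walk.cons_isPath_iff,
      SimpleGraph.Walk.isPath_iff_nil, SimpleGraph.Walk.nil_iff_length_eq, SimpleGraph.Walk.support_cons,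
      SimpleGraph.Walk.support_nil, SimpleGraph.Walk.edges_cons, SimpleGraph.Walk.edges_nil]
    refine ⟨⟨⟨?_, ?_⟩, ?_⟩, ?_⟩
    · trivial
    · simp [hwu]
    · simp [hvw, huv.symm]
    · simp [huv, hvw, hwu, huv.symm, hvw.symm, hwu.symm]
  refine hc u p hp s(w, u) (by simp [p]) ⟨c ⟨s(u, v), h1⟩, ?_⟩
  intro f hf hfe
  have hf' : f = s(u, v) ∨ f = s(v, w) ∨ f = s(w, u) := by
    simpa [p] using hf
  rcases hf' with rfl | rfl | rfl
  · rfl
  · exact heq.symm
  · exact absurd rfl hfe

/-- In a four-cycle no three consecutive edges have the same colour. -/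
lemma quad {u v w x : Fin 11} (h1 : G.Adj u v) (h2 : G.Adj v w) (h3 : G.Adj w x)
    (h4 : G.Adj x u) (huw : u ≠ w) (hvx : v ≠ x) :
    ¬ (c ⟨s(u, v), h1⟩ = c ⟨s(v, w), h2⟩ ∧ c ⟨s(v, w), h2⟩ = c ⟨s(w, x), h3⟩) := by
  rintro ⟨e1, e2⟩
  have huv := h1.ne
  have hvw := h2.ne
  have hwx := h3.ne
  have hxu := h4.ne
  let p : G.Walk u u := .cons h1 (.cons h2 (.cons h3 (.cons h4 .nil)))
  have hp : p.IsCycle := by
    simp only [p, SimpleGraph.Walk.cons_isCycle_iff, SimpleGraph.Walk.cons_isPath_iff,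
      SimpleGraph.Walk.isPath_iff_nil, SimpleGraph.Walk.nil_iff_length_eq, SimpleGraph.Walk.support_cons,
      SimpleGraph.Walk.support_nil, SimpleGraph.Walk.edges_cons, SimpleGraph.Walk.edges_nil]
    refine ⟨⟨⟨⟨?_, ?_⟩, ?_⟩, ?_⟩, ?_⟩
    · trivial
    · simp [hxu]
    · simp [hwx, huw.symm]
    · simp [hvw, hvx, huv.symm]
    · simp [huv, hvw, hwx, hxu, huw, hvx, huv.symm, hvw.symm, hwx.symm, hxu.symm, huw.symm,
        hvx.symm]
  refine hc u p hp s(x, u) (by simp [p]) ⟨c ⟨s(u, v), h1⟩, ?_⟩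
  intro f hf hfe
  have hf' : f = s(u, v) ∨ f = s(v, w) ∨ f = s(w, x) ∨ f = s(x, u) := by
    simpa [p] using hf
  rcases hf' with rfl | rfl | rfl | rfl
  · rfl
  · exact e1.symm
  · exact (e1.trans e2).symm
  · exact absurd rfl hfe

/-- Two of the vertices `2,3,4` cannot see the base edge in the same way. -/
lemma pair {z w y y' : Fin 11} (hz0 : G.Adj z 0) (hw0 : G.Adj w 0) (hz1 : G.Adj z 1)
    (hw1 : G.Adj w 1) (hyz : G.Adj y z) (hyw : G.Adj y w) (hyz' : G.Adj y' z)
    (hyw' : G.Adj y' w) (hzw : z ≠ w) (hyy : y ≠ y') (hy0 : y ≠ 0) (hy1 : y ≠ 1)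
    (hy0' : y' ≠ 0) (hy1' : y' ≠ 1)
    (hne : c ⟨s(z, 0), hz0⟩ ≠ c ⟨s(z, 1), hz1⟩)
    (h0 : c ⟨s(z, 0), hz0⟩ = c ⟨s(w, 0), hw0⟩)
    (h1 : c ⟨s(z, 1), hz1⟩ = c ⟨s(w, 1), hw1⟩) : False := by
  have sw : ∀ {a b : Fin 11} (h : G.Adj a b), c ⟨s(a, b), h⟩ = c ⟨s(b, a), h.symm⟩ := by
    intro a b h
    congr 1
    exact Subtype.ext Sym2.eq_swap
  have a1 := quad hc hyz hz0 hw0.symm hyw.symm hy0 hzw
  have a2 := quad hc hyw hw0 hz0.symm hyz.symm hy0 hzw.symm
  have a3 := quad hc hyz hz1 hw1.symm hyw.symm hy1 hzw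
  have a4 := quad hc hyw hw1 hz1.symm hyz.symm hy1 hzw.symm
  have b1 := quad hc hyz' hz0 hw0.symm hyw'.symm hy0' hzw
  have b2 := quad hc hyw' hw0 hz0.symm hyz'.symm hy0' hzw.symm
  have b3 := quad hc hyz' hz1 hw1.symm hyw'.symm hy1' hzw
  have b4 := quad hc hyw' hw1 hz1.symm hyz'.symm hy1' hzw.symm
  have d := quad hc hyz hyz'.symm hyw' hyw.symm hyy hzw
  rw [← sw hw0, ← h0] at a1
  rw [← sw hz0, ← h0] at a2
  rw [← sw hw1, ← h1] at a3
  rw [← sw hz1, ← h1] at a4
  rw [← sw hw0, ← h0] at b1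
  rw [← sw hz0, ← h0] at b2
  rw [← sw hw1, ← h1] at b3
  rw [← sw hz1, ← h1] at b4
  rw [← sw hyz'] at d
  generalize c ⟨s(z, 0), hz0⟩ = p at *
  generalize c ⟨s(z, 1), hz1⟩ = q at *
  generalize c ⟨s(y, z), hyz⟩ = r at *
  generalize c ⟨s(y, w), hyw⟩ = r2 at *
  generalize c ⟨s(y', z), hyz'⟩ = r3 at *
  generalize c ⟨s(y', w), hyw'⟩ = r4 at *
  clear h0 h1
  omega

end

/-- The graph has no strongly woody edge colouring with three colours. -/
lemma not_three (c : G.edgeSet → Fin 3) : ¬ StronglyWoody G c := by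
  intro hc
  have sw : ∀ {a b : Fin 11} (h : G.Adj a b), c ⟨s(a, b), h⟩ = c ⟨s(b, a), h.symm⟩ := by
    intro a b h
    congr 1
    exact Subtype.ext Sym2.eq_swap
  have h01 : G.Adj 0 1 := by decide
  have h20 : G.Adj 2 0 := by decide
  have h21 : G.Adj 2 1 := by decide
  have h30 : G.Adj 3 0 := by decide
  have h31 : G.Adj 3 1 := by decide
  have h40 : G.Adj 4 0 := by decide
  have h41 : G.Adj 4 1 := by decide
  have t2a := tri hc h20 h01 h21.symm
  have t2b := tri hc h21 h01.symm h20.symm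
  have t2c := tri hc h20.symm h21 h01.symm
  have t3a := tri hc h30 h01 h31.symm
  have t3b := tri hc h31 h01.symm h30.symm
  have t3c := tri hc h30.symm h31 h01.symm
  have t4a := tri hc h40 h01 h41.symm
  have t4b := tri hc h41 h01.symm h40.symm
  have t4c := tri hc h40.symm h41 h01.symm
  rw [← sw h01] at t2b t3b t4b
  rw [← sw h20] at t2c
  rw [← sw h30] at t3c
  rw [← sw h40] at t4c
  have p23 := pair hc h20 h30 h21 h31 (show G.Adj 5 2 by decide) (show G.Adj 5 3 by decide)
    (show G.Adj 6 2 by decide) (show G.Adj 6 3 by decide) (by decide) (by decide) (by decide)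
    (by decide) (by decide) (by decide) t2c
  have p24 := pair hc h20 h40 h21 h41 (show G.Adj 7 2 by decide) (show G.Adj 7 4 by decide)
    (show G.Adj 8 2 by decide) (show G.Adj 8 4 by decide) (by decide) (by decide) (by decide)
    (by decide) (by decide) (by decide) t2c
  have p34 := pair hc h30 h40 h31 h41 (show G.Adj 9 3 by decide) (show G.Adj 9 4 by decide)
    (show G.Adj 10 3 by decide) (show G.Adj 10 4 by decide) (by decide) (by decide) (by decide)
    (by decide) (by decide) (by decide) t3c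
  generalize c ⟨s(0, 1), h01⟩ = e at *
  generalize c ⟨s(2, 0), h20⟩ = x2 at *
  generalize c ⟨s(2, 1), h21⟩ = y2 at *
  generalize c ⟨s(3, 0), h30⟩ = x3 at *
  generalize c ⟨s(3, 1), h31⟩ = y3 at *
  generalize c ⟨s(4, 0), h40⟩ = x4 at *
  generalize c ⟨s(4, 1), h41⟩ = y4 at *
  clear hc sw
  have q23 : ¬ (x2 = x3 ∧ y2 = y3) := fun h => p23 h.1 h.2
  have q24 : ¬ (x2 = x4 ∧ y2 = y4) := fun h => p24 h.1 h.2
  have q34 : ¬ (x3 = x4 ∧ y3 = y4) := fun h => p34 h.1 h.2
  clear p23 p24 p34
  omega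

lemma col_le : colNumber G ≤ 3 := by
  refine Nat.sInf_le ⟨fun v => v.val, Fin.val_injective, ?_⟩
  intro v
  have hcard : ∀ v : Fin 11,
      (Finset.univ.filter fun u : Fin 11 => G.Adj v u ∧ (u : ℕ) < v).card ≤ 2 := by
    decide
  have hfin : {u : Fin 11 | G.Adj v u ∧ (u : ℕ) < v} =
      ((Finset.univ.filter fun u : Fin 11 => G.Adj v u ∧ (u : ℕ) < v : Finset (Fin 11)) :
        Set (Fin 11)) := by
    ext u; simp
  unfold backDegree
  rw [hfin, Set.ncard_coe_finset]
  have := hcard v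
  omega

lemma exists_colouring : ∃ k : ℕ, ∃ c : G.edgeSet → Fin k, StronglyWoody G c := by
  classical
  let e := Fintype.equivFin G.edgeSet
  refine ⟨Fintype.card G.edgeSet, fun x => e x, ?_⟩
  intro v p hp x hx
  rintro ⟨a, ha⟩
  have hl := hp.three_le_length
  rw [← SimpleGraph.Walk.length_edges] at hl
  have hnd : p.edges.Nodup := hp.edges_nodup
  -- two different edges other than `x`
  have hcard : 2 ≤ (p.edges.toFinset.erase x).card := by
    rw [Finset.card_erase_of_mem (by simpa using hx), List.toFinset_card_of_nodup hnd]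
    omega
  obtain ⟨f, hf, g, hg, hfg⟩ := Finset.one_lt_card.1 (show 1 < _ from hcard)
  simp only [Finset.mem_erase, List.mem_toFinset] at hf hg
  have h1 := ha f hf.2 hf.1
  have h2 := ha g hg.2 hg.1
  have := e.injective (h1.trans h2.symm)
  exact hfg (congrArg Subtype.val this)

/-- There is a finite simple graph whose strong arboricity exceeds its colouring number. -/
theorem result : ∃ (n : ℕ) (H : SimpleGraph (Fin n)),
    colNumber H + 1 ≤ strongArboricity H := by
  refine ⟨11, G, ?_⟩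
  have hcol := col_le
  have hne : {k : ℕ | ∃ c : G.edgeSet → Fin k, StronglyWoody G c}.Nonempty := exists_colouring
  have h4 : 4 ≤ strongArboricity G := by
    unfold strongArboricity
    refine le_csInf hne ?_
    rintro k ⟨c, hc⟩
    by_contra hk
    push Not at hk
    have hk3 : k ≤ 3 := by omega
    refine not_three (fun x => Fin.castLE hk3 (c x)) ?_
    intro v p hp e he
    rintro ⟨a, ha⟩
    -- the colour `a` is attained since the broken cycle is non-empty
    have hl := hp.three_le_length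
    rw [← SimpleGraph.Walk.length_edges] at hl
    have hnd : p.edges.Nodup := hp.edges_nodup
    have hcard : 1 ≤ (p.edges.toFinset.erase e).card := by
      rw [Finset.card_erase_of_mem (by simpa using he), List.toFinset_card_of_nodup hnd]
      omega
    obtain ⟨f, hf⟩ := Finset.card_pos.1 (show 0 < _ from hcard)
    simp only [Finset.mem_erase, List.mem_toFinset] at hf
    refine hc v p hp e he ⟨c ⟨f, p.edges_subset_edgeSet hf.2⟩, ?_⟩
    intro g hg hge
    have h1 := ha f hf.2 hf.1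
    have h2 := ha g hg hge
    exact Fin.castLE_injective hk3 (h2.trans h1.symm)
  omega

end Pool.Agent.Results.MP_5ca9a4_co.StrongArbVsCol
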